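import Pool.Agent.H60.CM.Basic

/-!
# Functions which vanish on the boundary (row BDF)
-/

set_option autoImplicit false

open Set Function MeasureTheory Filter Topology
open scoped Manifold ContDiff Matrix
open Pool.Agent.H60.CM

namespace Pool.Agent.H23.CM

/-- the analytic core in the half plane -/
theorem core {T : Set E2} (δ : E2 → ℝ) (hδ : ContDiffOn ℝ 1 δ T)
    (hu : UniqueDiffOn ℝ T) (y0 : E2) (hy0 : y0 0 = 0) (hyT : T ∈ 𝓝[{y : E2 | 0 ≤ y 0}] y0)
    (hz : ∀ y ∈ T, y 0 = 0 → δ y = 0) (hpos : 0 < fderivWithin ℝ δ T y0 (ee 0)) :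
    ∀ᶠ y in 𝓝 y0, 0 < y 0 → y ∈ T ∧ 0 < δ y := by
  have hy0T : y0 ∈ T := mem_of_mem_nhdsWithin (by
    change (0 : ℝ) ≤ y0 0
    rw [hy0]) hyT
  have hc : ContinuousOn (fun y => fderivWithin ℝ δ T y (ee 0)) T :=
    (hδ.continuousOn_fderivWithin hu le_rfl).clm_apply continuousOn_const
  have h1 : ∀ᶠ y in 𝓝[{y : E2 | 0 ≤ y 0}] y0, y ∈ T ∧ 0 < fderivWithin ℝ δ T y (ee 0) := by
    have h2 : ∀ᶠ y in 𝓝[T] y0, 0 < fderivWithin ℝ δ T y (ee 0) :=
      (hc y0 hy0T).eventually (lt_mem_nhds hpos)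
    have h3 : 𝓝[{y : E2 | 0 ≤ y 0}] y0 ≤ 𝓝[T] y0 := nhdsWithin_le_iff.2 hyT
    exact Filter.Eventually.and hyT (h3 h2)
  obtain ⟨ρ, hρ, hball⟩ := Metric.mem_nhdsWithin_iff.1 h1
  filter_upwards [Metric.ball_mem_nhds y0 hρ] with y hyb hyp
  obtain ⟨c, hcd⟩ : ∃ c : ℝ → E2, ∀ t, c t = (y - (y 0) • ee 0) + t • ee 0 := ⟨_, fun t => rfl⟩
  have hc0 : ∀ t, c t 0 = t := by
    intro t
    rw [hcd]
    simp [ee]
  have hc1 : ∀ t, c t 1 = y 1 := by
    intro t
    rw [hcd]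
    simp [ee]
  have hcy : c (y 0) = y := by
    rw [hcd]
    abel
  have hcb : ∀ t, 0 ≤ t → t ≤ y 0 → c t ∈ Metric.ball y0 ρ := by
    intro t h0 h1
    rw [Metric.mem_ball] at hyb ⊢
    refine lt_of_le_of_lt ?_ hyb
    rw [EuclideanSpace.dist_eq, EuclideanSpace.dist_eq]
    apply Real.sqrt_le_sqrt
    rw [Fin.sum_univ_two, Fin.sum_univ_two, hc0, hc1, hy0, Real.dist_eq t, Real.dist_eq (y 0),
      sub_zero, sub_zero, abs_of_nonneg h0, abs_of_pos hyp]
    nlinarith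
  have hcT : ∀ t, 0 ≤ t → t ≤ y 0 → c t ∈ T ∧ 0 < fderivWithin ℝ δ T (c t) (ee 0) := by
    intro t h0 h1
    exact hball ⟨hcb t h0 h1, by
      change (0 : ℝ) ≤ c t 0
      rw [hc0]
      exact h0⟩
  have hcc : Continuous c := by
    have : c = fun t => (y - (y 0) • ee 0) + t • ee 0 := funext hcd
    rw [this]
    fun_prop
  have hcder : ∀ t, HasDerivAt c (ee 0) t := by
    intro t
    have : c = fun t => (y - (y 0) • ee 0) + t • ee 0 := funext hcd
    rw [this]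
    have h := ((hasDerivAt_id t).smul_const (ee 0)).const_add (y - (y 0) • ee 0)
    simpa using h
  have hder : ∀ t, 0 < t → t < y 0 → HasDerivAt (δ ∘ c) (fderivWithin ℝ δ T (c t) (ee 0)) t := by
    intro t h0 h1
    have hn : T ∈ 𝓝 (c t) := by
      have ho : IsOpen (Metric.ball y0 ρ ∩ {z : E2 | 0 < z 0}) :=
        Metric.isOpen_ball.inter (isOpen_lt continuous_const (by fun_prop))
      refine Filter.mem_of_superset (ho.mem_nhds ⟨hcb t h0.le h1.le, ?_⟩) ?_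
      · change 0 < c t 0
        rw [hc0]
        exact h0
      · rintro z ⟨hz1, hz2⟩
        exact (hball ⟨hz1, (le_of_lt hz2 : (0 : ℝ) ≤ z 0)⟩).1
    have hd : DifferentiableAt ℝ δ (c t) :=
      ((hδ.differentiableOn one_ne_zero) (c t) (hcT t h0.le h1.le).1).differentiableAt hn
    rw [fderivWithin_of_mem_nhds hn]
    exact hd.hasFDerivAt.comp_hasDerivAt t (hcder t)
  have hcont : ContinuousOn (δ ∘ c) (Icc 0 (y 0)) := by
    refine hδ.continuousOn.comp hcc.continuousOn ?_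
    intro t ht
    exact (hcT t ht.1 ht.2).1
  have hmono : StrictMonoOn (δ ∘ c) (Icc 0 (y 0)) := by
    refine strictMonoOn_of_deriv_pos (convex_Icc 0 (y 0)) hcont ?_
    intro t ht
    rw [interior_Icc] at ht
    rw [(hder t ht.1 ht.2).deriv]
    exact (hcT t ht.1.le ht.2.le).2
  have hlt := hmono (left_mem_Icc.2 hyp.le) (right_mem_Icc.2 hyp.le) hyp
  have hz0 : δ (c 0) = 0 := hz (c 0) (hcT 0 le_rfl hyp.le).1 (hc0 0)
  simp only [comp_apply, hcy, hz0] at hlt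
  exact ⟨by
    have := (hcT (y 0) hyp.le le_rfl).1
    rwa [hcy] at this, hlt⟩

theorem tgt (D : Dat) (p : D.S) : (extChartAt (𝓡∂ 2) p).target ⊆ {y : E2 | 0 ≤ y 0} := by
  have h := extChartAt_target_subset_range (I := 𝓡∂ 2) p
  rw [range_modelWithCornersEuclideanHalfSpace] at h
  exact h

theorem int_pos (D : Dat) (p q : D.S) (hq : q ∈ (chartAt (EuclideanHalfSpace 2) p).source)
    (hi : q ∈ D.int) : 0 < (extChartAt (𝓡∂ 2) p q) 0 := by
  have h := ((𝓡∂ 2).isInteriorPoint_iff_of_mem_atlas (n := ∞) (by simp)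
    (chart_mem_atlas (EuclideanHalfSpace 2) p) hq).1 hi
  have h2 := interior_mono (extChartAt_target_subset_range (I := 𝓡∂ 2) p) h
  rw [interior_range_modelWithCornersEuclideanHalfSpace] at h2
  exact h2

theorem bd_zero (D : Dat) (p : D.S) (hi : p ∈ D.bd) : (extChartAt (𝓡∂ 2) p p) 0 = 0 := by
  have h : extChartAt (𝓡∂ 2) p p ∈ frontier (range (𝓡∂ 2)) := hi
  rw [frontier_range_modelWithCornersEuclideanHalfSpace] at h
  exact h.symm

theorem pos_case (D : Dat) (d : D.S → ℝ) (hd : D.Sm d) (hz : ∀ p ∈ D.bd, d p = 0) (p : D.S)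
    (hp : p ∈ D.bd) (hpos : 0 < dd d p 0) : ∀ᶠ q in 𝓝 p, q ∈ D.int → 0 < d q := by
  obtain ⟨T, hTd⟩ : ∃ T : Set E2, T = (extChartAt (𝓡∂ 2) p).target := ⟨_, rfl⟩
  have hT : T ⊆ {y : E2 | 0 ≤ y 0} := by
    rw [hTd]
    exact tgt D p
  have hδ : ContDiffOn ℝ 1 (d ∘ (extChartAt (𝓡∂ 2) p).symm) T := by
    have h1 : ContMDiffOn 𝓘(ℝ, E2) (𝓡∂ 2) ∞ (extChartAt (𝓡∂ 2) p).symm T := by
      rw [hTd]
      exact contMDiffOn_extChartAt_symm p
    have h2 : ContMDiffOn 𝓘(ℝ, E2) 𝓘(ℝ, ℝ) ∞ (d ∘ (extChartAt (𝓡∂ 2) p).symm) T :=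
      ContMDiff.comp_contMDiffOn hd h1
    exact (contMDiffOn_iff_contDiffOn.1 h2).of_le (by simp)
  have hu : UniqueDiffOn ℝ T := by
    rw [hTd]
    exact uniqueDiffOn_extChartAt_target p
  have hnh : T ∈ 𝓝[{y : E2 | 0 ≤ y 0}] (extChartAt (𝓡∂ 2) p p) := by
    have h := extChartAt_target_mem_nhdsWithin (I := 𝓡∂ 2) p
    rw [range_modelWithCornersEuclideanHalfSpace] at h
    rw [hTd]
    exact h
  have hdd : dd d p 0 = fderivWithin ℝ (d ∘ (extChartAt (𝓡∂ 2) p).symm) T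
      (extChartAt (𝓡∂ 2) p p) (ee 0) := by
    have hdw := (Dat.Sm.md D hd p).diffWithin
    rw [dd_eq (Dat.Sm.md D hd p)]
    rw [range_modelWithCornersEuclideanHalfSpace] at hdw ⊢
    rw [fderivWithin_subset hT (hu _ (by
      rw [hTd]
      exact mem_extChartAt_target p)) hdw]
  have hzT : ∀ y ∈ T, y 0 = 0 → (d ∘ (extChartAt (𝓡∂ 2) p).symm) y = 0 := by
    intro y hy hy0
    apply hz
    by_contra hn
    have hi : (extChartAt (𝓡∂ 2) p).symm y ∈ D.int := (D.int_or_bd _).resolve_right hn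
    rw [hTd] at hy
    have hs : (extChartAt (𝓡∂ 2) p).symm y ∈ (chartAt (EuclideanHalfSpace 2) p).source := by
      have := (extChartAt (𝓡∂ 2) p).map_target hy
      rwa [extChartAt_source] at this
    have h := int_pos D p _ hs hi
    rw [(extChartAt (𝓡∂ 2) p).right_inv hy, hy0] at h
    exact lt_irrefl _ h
  have hcore := core _ hδ hu (extChartAt (𝓡∂ 2) p p) (bd_zero D p hp) hnh hzT (by
    rw [← hdd]
    exact hpos)
  have hct : ContinuousAt (extChartAt (𝓡∂ 2) p) p := continuousAt_extChartAt p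
  filter_upwards [hct.eventually hcore,
    (chartAt (EuclideanHalfSpace 2) p).open_source.mem_nhds (mem_chart_source _ p)] with q h1 h2 h3
  have h4 := (h1 (int_pos D p q h2 h3)).2
  have h5 : (extChartAt (𝓡∂ 2) p).symm (extChartAt (𝓡∂ 2) p q) = q :=
    (extChartAt (𝓡∂ 2) p).left_inv (by
      rw [extChartAt_source]
      exact h2)
  simpa only [comp_apply, h5] using h4

theorem pf_BDF (h1 : T_BCV) : T_BDF := by
  intro D d hd hz p hp hne
  have hd1 : dd d p 1 = 0 := by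
    obtain ⟨γ, -, hγ, hder⟩ := h1 D p hp
    have h2 : HasDerivAt (fun t => d (γ t)) (dd d p 1) 0 := hder ℝ d hd
    have h3 : (fun t => d (γ t)) =ᶠ[𝓝 0] fun _ => (0 : ℝ) := by
      filter_upwards [hγ] with t ht
      exact hz _ ht
    have h4 : HasDerivAt (fun t => d (γ t)) 0 0 :=
      (hasDerivAt_const (0 : ℝ) (0 : ℝ)).congr_of_eventuallyEq h3
    exact h2.unique h4
  have hd0 : dd d p 0 ≠ 0 := by
    rcases hne with h | h
    · exact h
    · exact absurd hd1 h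
  rcases lt_or_gt_of_ne hd0 with h | h
  · right
    have h2 := pos_case D (fun q => -d q) (Dat.Sm.neg D hd) (fun q hq => by rw [hz q hq, neg_zero])
      p hp (by
        rw [dd_neg (Dat.Sm.md D hd p)]
        linarith)
    filter_upwards [h2] with q hq hi
    have := hq hi
    linarith
  · left
    exact pos_case D d hd hz p hp h

end Pool.Agent.H23.CM
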