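import Pool.Agent.H60.CM.Basic

/-!
# The interior of a half is connected (row CNN)
-/

set_option autoImplicit false

open Set Function MeasureTheory Filter Topology
open scoped Manifold ContDiff Matrix
open Pool.Agent.H60.CM

namespace Pool.Agent.H23.CM

theorem top_aux {S : Type} [TopologicalSpace S] [PreconnectedSpace S] (s1 s2 : Set S)
    (hd : Dense (s1 ∪ s2))
    (hl : ∀ p, ∃ W : Set S, IsOpen W ∧ p ∈ W ∧ (W ∩ s1 = ∅ ∨ W ∩ s2 = ∅)) :
    s1 = ∅ ∨ s2 = ∅ := by
  have hu : closure s1 ∪ closure s2 = univ := by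
    rw [← closure_union]
    exact hd.closure_eq
  have hdis : closure s1 ∩ closure s2 = ∅ := by
    rw [Set.eq_empty_iff_forall_notMem]
    rintro p ⟨hp1, hp2⟩
    obtain ⟨W, hW, hpW, h | h⟩ := hl p
    · obtain ⟨q, hq⟩ := mem_closure_iff.1 hp1 W hW hpW
      rw [h] at hq
      exact hq
    · obtain ⟨q, hq⟩ := mem_closure_iff.1 hp2 W hW hpW
      rw [h] at hq
      exact hq
  have hc : IsClopen (closure s1) := by
    refine ⟨isClosed_closure, ?_⟩
    have h : closure s1 = (closure s2)ᶜ := by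
      ext p
      constructor
      · intro h1 h2
        have : p ∈ closure s1 ∩ closure s2 := ⟨h1, h2⟩
        rw [hdis] at this
        exact this
      · intro h2
        have h3 : p ∈ closure s1 ∪ closure s2 := by
          rw [hu]
          exact mem_univ p
        exact h3.resolve_right h2
    rw [h]
    exact isClosed_closure.isOpen_compl
  rcases isClopen_iff.1 hc with h | h
  · left
    exact closure_empty_iff s1 |>.1 h
  · right
    rw [h, univ_inter] at hdis
    exact closure_empty_iff s2 |>.1 hdis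

theorem pf_CNN (h1 : T_LC1) (h2 : T_LC2) (h3 : T_FIX) : T_CNN := by
  intro D τ A hinv hmir hA
  have hI : τ ⁻¹' D.int = D.int := τ.preimage_interior (by simp)
  have hIm : ∀ p, p ∈ D.int → τ p ∈ D.int := by
    intro p hp
    have : p ∈ τ ⁻¹' D.int := by
      rw [hI]
      exact hp
    exact this
  have hdis : ∀ p, p ∈ A → τ p ∈ A → False := fun p hp hp' =>
    Set.disjoint_left.1 hA.disj hp hp'
  rw [isPreconnected_iff_subset_of_disjoint]
  intro u v hu hv huv hdj
  have hdj' : ∀ p, p ∈ A → p ∈ D.int → p ∈ u → p ∈ v → False := by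
    intro p ha hb hc hd
    have : p ∈ (A ∩ D.int) ∩ (u ∩ v) := ⟨⟨ha, hb⟩, hc, hd⟩
    rw [hdj] at this
    exact this
  obtain ⟨Sg, hSg⟩ : ∃ Sg : Set D.S → Set D.S, ∀ w p, p ∈ Sg w ↔
      (p ∈ A ∧ p ∈ D.int ∧ p ∈ w) ∨ (τ p ∈ A ∧ τ p ∈ D.int ∧ τ p ∈ w) :=
    ⟨fun w => {p | (p ∈ A ∧ p ∈ D.int ∧ p ∈ w) ∨ (τ p ∈ A ∧ τ p ∈ D.int ∧ τ p ∈ w)},
      fun w p => Iff.rfl⟩
  have hSop : ∀ w, IsOpen w → IsOpen (Sg w) := by
    intro w hw
    have hB : IsOpen (A ∩ (D.int ∩ w)) := hA.isOpen.inter (D.int_open.inter hw)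
    have h : Sg w = (A ∩ (D.int ∩ w)) ∪ τ ⁻¹' (A ∩ (D.int ∩ w)) := by
      ext p
      rw [hSg]
      rfl
    rw [h]
    exact hB.union (hB.preimage τ.continuous)
  have hSinv : ∀ w p, p ∈ Sg w → τ p ∈ Sg w := by
    intro w p hp
    rw [hSg] at hp ⊢
    rw [hinv]
    exact hp.symm
  have hSi : ∀ w p, p ∈ Sg w → p ∈ D.int := by
    intro w p hp
    rw [hSg] at hp
    rcases hp with h | h
    · exact h.2.1
    · have := hIm _ h.2.1
      rwa [hinv] at this
  have hSA : ∀ w p, p ∈ Sg w → τ p ≠ p := by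
    intro w p hp
    rw [hSg] at hp
    rcases hp with h | h
    · exact (hA.cover p).2 (Or.inl h.1)
    · exact (hA.cover p).2 (Or.inr h.1)
  have hSd : ∀ p, p ∈ Sg u → p ∈ Sg v → False := by
    intro p hp hq
    rw [hSg] at hp hq
    rcases hp with h | h <;> rcases hq with h' | h'
    · exact hdj' p h.1 h.2.1 h.2.2 h'.2.2
    · exact hdis p h.1 h'.1
    · exact hdis p h'.1 h.1
    · exact hdj' _ h.1 h.2.1 h.2.2 h'.2.2
  have hSc : ∀ p, p ∈ D.int → (p ∈ A ∨ τ p ∈ A) → p ∈ Sg u ∨ p ∈ Sg v := by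
    intro p hp hpA
    rcases hpA with h | h
    · rcases huv ⟨h, hp⟩ with h' | h'
      · left
        rw [hSg]
        exact Or.inl ⟨h, hp, h'⟩
      · right
        rw [hSg]
        exact Or.inl ⟨h, hp, h'⟩
    · rcases huv ⟨h, hIm p hp⟩ with h' | h'
      · left
        rw [hSg]
        exact Or.inr ⟨h, hIm p hp, h'⟩
      · right
        rw [hSg]
        exact Or.inr ⟨h, hIm p hp, h'⟩
  -- points of `A`
  have key1 : ∀ p, p ∈ A → ∃ W : Set D.S, IsOpen W ∧ p ∈ W ∧ (W ∩ Sg u = ∅ ∨ W ∩ Sg v = ∅) := by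
    intro p hp
    obtain ⟨W, hW, hpW, hWA, hWc⟩ := h1 D p A hA.isOpen hp
    refine ⟨W, hW, hpW, ?_⟩
    rcases isPreconnected_iff_subset_of_disjoint.1 hWc u v hu hv
      (fun q hq => huv ⟨hWA hq.1, hq.2⟩) (by
        rw [Set.eq_empty_iff_forall_notMem]
        rintro q ⟨hq1, hq2⟩
        exact hdj' q (hWA hq1.1) hq1.2 hq2.1 hq2.2) with h | h
    · right
      rw [Set.eq_empty_iff_forall_notMem]
      rintro q ⟨hqW, hqS⟩
      have hqi := hSi _ _ hqS
      have hqu := h ⟨hqW, hqi⟩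
      rw [hSg] at hqS
      rcases hqS with h' | h'
      · exact hdj' q h'.1 hqi hqu h'.2.2
      · exact hdis q (hWA hqW) h'.1
    · left
      rw [Set.eq_empty_iff_forall_notMem]
      rintro q ⟨hqW, hqS⟩
      have hqi := hSi _ _ hqS
      have hqu := h ⟨hqW, hqi⟩
      rw [hSg] at hqS
      rcases hqS with h' | h'
      · exact hdj' q h'.1 hqi h'.2.2 hqu
      · exact hdis q (hWA hqW) h'.1
  have key2 : ∀ p, τ p ∈ A → ∃ W : Set D.S, IsOpen W ∧ p ∈ W ∧
      (W ∩ Sg u = ∅ ∨ W ∩ Sg v = ∅) := by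
    intro p hp
    obtain ⟨W, hW, hpW, h⟩ := key1 (τ p) hp
    refine ⟨τ ⁻¹' W, hW.preimage τ.continuous, hpW, ?_⟩
    rcases h with h | h
    · left
      rw [Set.eq_empty_iff_forall_notMem]
      rintro q ⟨hqW, hqS⟩
      have : τ q ∈ W ∩ Sg u := ⟨hqW, hSinv _ _ hqS⟩
      rw [h] at this
      exact this
    · right
      rw [Set.eq_empty_iff_forall_notMem]
      rintro q ⟨hqW, hqS⟩
      have : τ q ∈ W ∩ Sg v := ⟨hqW, hSinv _ _ hqS⟩
      rw [h] at this
      exact this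
  have hx1 : ∀ q, D.x (τ q) 1 = -D.x q 1 := by
    intro q
    rw [hmir]
    simp [mir]
  have key3 : ∀ p, τ p = p → ∃ W : Set D.S, IsOpen W ∧ p ∈ W ∧
      (W ∩ Sg u = ∅ ∨ W ∩ Sg v = ∅) := by
    intro p hp
    obtain ⟨W, hW, hpW, -, hWp, -, hWz⟩ := h2 D τ hinv hmir p univ hp isOpen_univ (mem_univ p)
    refine ⟨W ∩ τ ⁻¹' W, hW.inter (hW.preimage τ.continuous), ⟨hpW, ?_⟩, ?_⟩
    · change τ p ∈ W
      rw [hp]
      exact hpW
    have gen : ∀ w : Set D.S, ∀ w' : Set D.S, (∀ p, p ∈ Sg w → p ∈ Sg w' → False) →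
        {q | q ∈ W ∧ q ∈ D.int ∧ 0 < D.x q 1} ⊆ Sg w → (W ∩ τ ⁻¹' W) ∩ Sg w' = ∅ := by
      intro w w' hww hsub
      rw [Set.eq_empty_iff_forall_notMem]
      rintro q ⟨⟨hqW, hqW'⟩, hqS⟩
      have hqi := hSi _ _ hqS
      rcases lt_trichotomy (D.x q 1) 0 with hs | hs | hs
      · have h4 : τ q ∈ Sg w := hsub ⟨hqW', hIm q hqi, by
          rw [hx1]
          linarith⟩
        exact hww (τ q) h4 (hSinv _ _ hqS)
      · exact hSA _ _ hqS (hWz q hqW hs)
      · exact hww q (hsub ⟨hqW, hqi, hs⟩) hqS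
    rcases isPreconnected_iff_subset_of_disjoint.1 hWp (Sg u) (Sg v) (hSop u hu) (hSop v hv) (by
        rintro q ⟨hqW, hqi, hqx⟩
        apply hSc q hqi
        apply (hA.cover q).1
        intro h
        have := hx1 q
        rw [h] at this
        linarith) (by
        rw [Set.eq_empty_iff_forall_notMem]
        rintro q ⟨hq1, hq2⟩
        exact hSd q hq2.1 hq2.2) with h | h
    · right
      exact gen u v hSd h
    · left
      exact gen v u (fun p a b => hSd p b a) h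
  have hfin := top_aux (Sg u) (Sg v) ((h3 D τ A hinv hmir hA).mono (fun p hp =>
    hSc p hp.1 hp.2)) (fun p => by
      by_cases hp : τ p = p
      · exact key3 p hp
      · rcases (hA.cover p).1 hp with h | h
        · exact key1 p h
        · exact key2 p h)
  rcases hfin with h | h
  · right
    intro p hp
    rcases huv hp with h' | h'
    · exfalso
      have : p ∈ Sg u := by
        rw [hSg]
        exact Or.inl ⟨hp.1, hp.2, h'⟩
      rw [h] at this
      exact this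
    · exact h'
  · left
    intro p hp
    rcases huv hp with h' | h'
    · exact h'
    · exfalso
      have : p ∈ Sg v := by
        rw [hSg]
        exact Or.inl ⟨hp.1, hp.2, h'⟩
      rw [h] at this
      exact this

end Pool.Agent.H23.CM
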