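import Pool.Agent.H60.CM.Basic

/-!
# The covering argument (row UCV)
-/

set_option autoImplicit false

open Set Function MeasureTheory Filter Topology
open scoped Manifold ContDiff Matrix
open Pool.Agent.H60.CM

namespace Pool.Agent.H23.CM

theorem loc_hom {X Y : Type} [TopologicalSpace X] [TopologicalSpace Y] (f : X → Y)
    (hf : Continuous f)
    (h : ∀ x, ∃ U : Set X, IsOpen U ∧ x ∈ U ∧ InjOn f U ∧ ∀ V ⊆ U, IsOpen V → IsOpen (f '' V)) :
    IsLocalHomeomorph f := by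
  rw [isLocalHomeomorph_iff_isOpenEmbedding_restrict]
  intro x
  obtain ⟨U, hU, hxU, hinj, hop⟩ := h x
  refine ⟨U, hU.mem_nhds hxU, ?_⟩
  refine IsOpenEmbedding.of_continuous_injective_isOpenMap ?_ ?_ ?_
  · exact hf.comp continuous_subtype_val
  · intro a b hab
    exact Subtype.ext (hinj a.2 b.2 hab)
  · intro V hV
    have h1 : IsOpen ((Subtype.val : U → X) '' V) := hU.isOpenMap_subtype_val V hV
    have h2 : U.domRestrict f '' V = f '' ((Subtype.val : U → X) '' V) := by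
      rw [image_image]
      rfl
    rw [h2]
    exact hop _ (by
      rintro _ ⟨q, -, rfl⟩
      exact q.2) h1

theorem top_cov {S V : Type} [TopologicalSpace S] [CompactSpace S] [T2Space S]
    [PreconnectedSpace S] [TopologicalSpace V] [T2Space V] (x : S → V) (hx : Continuous x)
    (K : Set V) (hK : IsCompact K) (B : Set S) (hB : IsPreconnected B) (b0 : S) (hb0 : b0 ∈ B)
    (hBK : ∀ b ∈ B, x b ∈ K) [SimplyConnectedSpace K] [LocallyPathConnectedSpace K]
    (hloc : IsLocalHomeomorph (fun q : {q : S // x q ∈ K} => (⟨x q.1, q.2⟩ : K)))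
    (hnb1 : ∀ b ∈ B, ∀ᶠ q in 𝓝 b, x q ∈ K)
    (hnb2 : ∀ q, x q ∈ K → x q ∉ x '' B → ∀ᶠ q' in 𝓝 q, x q' ∈ K) :
    Injective x ∧ range x = K := by
  have hKc : IsClosed K := hK.isClosed
  have hX : CompactSpace {q : S // x q ∈ K} :=
    isCompact_iff_compactSpace.1 ((hKc.preimage hx).isCompact)
  have hcov : IsCoveringMap (fun q : {q : S // x q ∈ K} => (⟨x q.1, q.2⟩ : K)) :=
    isLocalHomeomorph_iff_isCoveringMap.1 hloc
  obtain ⟨s, ⟨hs0, hs⟩, -⟩ := hcov.existsUnique_continuousMap_lifts (ContinuousMap.id K)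
    ⟨x b0, hBK b0 hb0⟩ ⟨b0, hBK b0 hb0⟩ rfl
  have hs' : ∀ y : K, x (s y).1 = y.1 := by
    intro y
    have := congrFun hs y
    exact congrArg Subtype.val this
  -- on the boundary
  have hsB : ∀ b (hb : b ∈ B), s ⟨x b, hBK b hb⟩ = ⟨b, hBK b hb⟩ := by
    have : PreconnectedSpace B := isPreconnected_iff_preconnectedSpace.1 hB
    have h1 : Continuous (fun b : B => s ⟨x b.1, hBK b.1 b.2⟩) :=
      s.continuous.comp (by fun_prop)
    have h2 : Continuous (fun b : B => (⟨b.1, hBK b.1 b.2⟩ : {q : S // x q ∈ K})) := by fun_prop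
    have h3 := hcov.eq_of_comp_eq h1 h2 (by
      funext b
      apply Subtype.ext
      exact hs' _) ⟨b0, hb0⟩ hs0
    intro b hb
    exact congrFun h3 ⟨b, hb⟩
  -- the image of the section
  obtain ⟨R, hR⟩ : ∃ R : Set S, R = range (fun y : K => (s y).1) := ⟨_, rfl⟩
  have : CompactSpace K := isCompact_iff_compactSpace.1 hK
  have hRc : IsClosed R := by
    rw [hR]
    exact (isCompact_range (continuous_subtype_val.comp s.continuous)).isClosed
  have hRo : IsOpen R := by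
    rw [isOpen_iff_mem_nhds]
    intro q hq
    rw [hR] at hq
    obtain ⟨y, rfl⟩ := hq
    have hKn : ∀ᶠ q' in 𝓝 (s y).1, x q' ∈ K := by
      by_cases hy : ∃ b ∈ B, x b = y.1
      · obtain ⟨b, hb, hby⟩ := hy
        have h1 : s y = ⟨b, hBK b hb⟩ := by
          rw [← hsB b hb]
          congr 1
          exact Subtype.ext hby.symm
        rw [h1]
        exact hnb1 b hb
      · refine hnb2 _ (s y).2 ?_
        rintro ⟨b, hb, hby⟩
        exact hy ⟨b, hb, by rw [hby, hs']⟩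
    obtain ⟨W, hW, hWinj⟩ := hloc.isLocallyInjective (s y)
    have hc : ContinuousAt (fun q : {q : S // x q ∈ K} => s ⟨x q.1, q.2⟩) (s y) :=
      (s.continuous.comp (by fun_prop)).continuousAt
    have hv : s ⟨x (s y).1, (s y).2⟩ = s y := by
      congr 1
      exact Subtype.ext (hs' y)
    have hmem : ∀ᶠ q : {q : S // x q ∈ K} in 𝓝 (s y), s ⟨x q.1, q.2⟩ ∈ W ∧ q ∈ W := by
      refine Filter.Eventually.and ?_ (hW.mem_nhds hWinj.1)
      apply hc
      change W ∈ 𝓝 (s ⟨x (s y).1, (s y).2⟩)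
      rw [hv]
      exact hW.mem_nhds hWinj.1
    have hmem2 : ∀ᶠ q : {q : S // x q ∈ K} in 𝓝 (s y), q.1 ∈ R := by
      filter_upwards [hmem] with q hq
      have h1 : s ⟨x q.1, q.2⟩ = q := hWinj.2 hq.1 hq.2 (Subtype.ext (hs' _))
      rw [hR]
      exact ⟨⟨x q.1, q.2⟩, congrArg Subtype.val h1⟩
    rw [nhds_subtype_eq_comap, Filter.eventually_comap] at hmem2
    filter_upwards [hmem2, hKn] with q h1 h2
    exact h1 ⟨q, h2⟩ rfl
  have hRu : R = univ := by
    refine IsClopen.eq_univ ⟨hRc, hRo⟩ ?_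
    rw [hR]
    exact ⟨_, ⟨⟨x b0, hBK b0 hb0⟩, rfl⟩⟩
  have hall : ∀ q : S, ∃ y : K, (s y).1 = q := by
    intro q
    have : q ∈ R := by
      rw [hRu]
      exact mem_univ q
    rw [hR] at this
    exact this
  constructor
  · intro p q hpq
    obtain ⟨y, rfl⟩ := hall p
    obtain ⟨z, rfl⟩ := hall q
    rw [hs', hs'] at hpq
    rw [Subtype.ext hpq]
  · ext y
    constructor
    · rintro ⟨q, rfl⟩
      obtain ⟨z, rfl⟩ := hall q
      exact (s z).2
    · intro hy
      exact ⟨(s ⟨y, hy⟩).1, hs' _⟩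

theorem pf_UCV (h1 : T_BPC) : T_UCV := by
  intro D Y K hK hY hi hb
  obtain ⟨⟨b0, hb0⟩, -, hpre, -⟩ := h1 D
  have := hK.sc
  have : LocallyPathConnectedSpace K := hK.lpc
  have hx : Continuous D.x := Dat.Sm.cont D D.smx
  have hbc : ∀ b ∈ D.bd, D.x b ∈ circ D.r := fun b hb' => D.cmc.circle.mapsTo hb'
  have hbij : ∀ y ∈ circ D.r, ∃ b ∈ D.bd, D.x b = y := fun y hy => D.cmc.circle.surjOn hy
  have hL : ∀ (Z : Set V3), K ⊆ Z → ∀ q : {q : D.S // D.x q ∈ K}, Loc D Z q.1 →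
      ∃ U : Set {q : D.S // D.x q ∈ K}, IsOpen U ∧ q ∈ U ∧
        InjOn (fun q : {q : D.S // D.x q ∈ K} => (⟨D.x q.1, q.2⟩ : K)) U ∧
        ∀ V ⊆ U, IsOpen V →
          IsOpen ((fun q : {q : D.S // D.x q ∈ K} => (⟨D.x q.1, q.2⟩ : K)) '' V) := by
    intro Z hZ q hq
    obtain ⟨U, hU, hqU, -, hinj, hop⟩ := hq
    refine ⟨Subtype.val ⁻¹' U, hU.preimage continuous_subtype_val, hqU, ?_, ?_⟩
    · intro a ha b hb' hab
      exact Subtype.ext (hinj ha hb' (congrArg Subtype.val hab))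
    · intro V hV hVo
      obtain ⟨V', hV', rfl⟩ := isOpen_induced_iff.1 hVo
      obtain ⟨G, hG, hGe⟩ := hop (V' ∩ U) inter_subset_right (hV'.inter hU)
      have h : (fun q : {q : D.S // D.x q ∈ K} => (⟨D.x q.1, q.2⟩ : K)) '' (Subtype.val ⁻¹' V') =
          Subtype.val ⁻¹' G := by
        ext y
        constructor
        · rintro ⟨a, ha, rfl⟩
          have h2 : D.x a.1 ∈ D.x '' (V' ∩ U) := ⟨a.1, ⟨ha, hV ha⟩, rfl⟩
          rw [hGe] at h2
          exact h2.1
        · intro hy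
          have h2 : y.1 ∈ G ∩ Z := ⟨hy, hZ y.2⟩
          rw [← hGe] at h2
          obtain ⟨a, ha, hay⟩ := h2
          have h3 : D.x a ∈ K := by
            rw [hay]
            exact y.2
          exact ⟨⟨a, h3⟩, ha.1, Subtype.ext hay⟩
      rw [h]
      exact hG.preimage continuous_subtype_val
  refine top_cov D.x hx K hK.cpt D.bd hpre b0 hb0 (fun b hb' => hK.sub (hbc b hb')) ?_ ?_ ?_
  · refine loc_hom _ (by fun_prop) ?_
    intro q
    rcases D.int_or_bd q.1 with h | h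
    · exact hL Y hK.subY q (hi q.1 h)
    · exact hL K Subset.rfl q (hb q.1 h)
  · intro b hb'
    obtain ⟨U, hU, hbU, hmaps, -⟩ := hb b hb'
    filter_upwards [hU.mem_nhds hbU] with q hq
    exact hmaps hq
  · intro q hq hqB
    obtain ⟨G, hG, hGe⟩ := hK.opn
    have hqC : D.x q ∉ circ D.r := by
      intro h
      obtain ⟨b, hb', hbq⟩ := hbij _ h
      exact hqB ⟨b, hb', hbq⟩
    have hqG : D.x q ∈ G := by
      have : D.x q ∈ K \ circ D.r := ⟨hq, hqC⟩
      rw [hGe] at this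
      exact this.1
    filter_upwards [(hG.preimage hx).mem_nhds hqG] with q' hq'
    have : D.x q' ∈ G ∩ Y := ⟨hq', hY q'⟩
    rw [← hGe] at this
    exact this.1

end Pool.Agent.H23.CM
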